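import Pool.Agent.Helper15.Huge

set_option autoImplicit false

namespace Pool.Agent.Results.MP_ea94d5_nt.UniformOutsideWindow

open Finset Pool.Agent.Helper15

theorem exists_k (T : ℝ) (hT : 1 < T) (H : ℕ) (hH : 1 ≤ H) :
    ∃ k : ℕ, 1 ≤ k ∧ (H : ℝ) ^ 4 ≤ T ^ (2 * k) ∧ (k : ℝ) ≤ 1 + 2 * (Real.log H / Real.log T) := by
  have hlT : 0 < Real.log T := Real.log_pos hT
  have hH1 : (1 : ℝ) ≤ H := by exact_mod_cast hH
  have hlH : 0 ≤ Real.log H := Real.log_nonneg hH1
  have hq : 0 ≤ 2 * (Real.log H / Real.log T) := by positivity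
  refine ⟨max 1 ⌈2 * (Real.log H / Real.log T)⌉₊, le_max_left _ _, ?_, ?_⟩
  · rw [← Real.log_le_log_iff (by positivity) (by positivity), Real.log_pow, Real.log_pow]
    have h1 : 2 * (Real.log H / Real.log T) ≤ ((max 1 ⌈2 * (Real.log H / Real.log T)⌉₊ : ℕ) : ℝ) :=
      le_trans (Nat.le_ceil _) (by exact_mod_cast le_max_right _ _)
    have h2 : 2 * (Real.log H / Real.log T) * Real.log T = 2 * Real.log H := by
      field_simp
    have h3 := mul_le_mul_of_nonneg_right h1 hlT.le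
    push_cast at h3 ⊢
    nlinarith
  · rw [Nat.cast_max]
    refine max_le ?_ ?_
    · push_cast
      linarith
    · have := Nat.ceil_lt_add_one hq
      linarith

/-- The bound for sets of positive integers. -/
theorem pos_bound (n : ℤ) (hn : n ≠ 0) (T : ℝ) (hT : 1 < T) (P : Finset ℤ)
    (hpos : ∀ a ∈ P, 0 < a)
    (hout : ∀ a ∈ P, T * (a : ℝ) ≤ Real.sqrt |(n : ℝ)| ∨ T * Real.sqrt |(n : ℝ)| ≤ (a : ℝ))
    (hsq : ∀ a ∈ P, ∀ b ∈ P, a ≠ b → IsSquare (a * b + n)) :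
    (P.card : ℝ) ≤ 593 + 48 * (Real.log |(n : ℝ)| / Real.log T) := by
  classical
  have hn1 : 1 ≤ |n| := Int.one_le_abs hn
  have hn1R : (1 : ℝ) ≤ |(n : ℝ)| := by exact_mod_cast hn1
  have hs1 : 1 ≤ Real.sqrt |(n : ℝ)| := by
    rw [Real.one_le_sqrt]; exact hn1R
  have hlT : 0 < Real.log T := Real.log_pos hT
  -- the natural number |n|
  set N : ℕ := n.natAbs with hN
  have hNZ : (N : ℤ) = |n| := by rw [hN]; exact Int.natCast_natAbs n
  have hNR : (N : ℝ) = |(n : ℝ)| := by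
    have : ((N : ℤ) : ℝ) = ((|n| : ℤ) : ℝ) := by rw [hNZ]
    push_cast at this
    exact this
  have hN1 : 1 ≤ N := by
    have : (1 : ℤ) ≤ N := by rw [hNZ]; exact hn1
    exact_mod_cast this
  obtain ⟨k1, hk1, hk1T, hk1b⟩ := exists_k T hT N hN1
  obtain ⟨k2, hk2, hk2T, hk2b⟩ := exists_k T hT (N ^ 2) (Nat.one_le_pow _ _ hN1)
  set P1 := P.filter (fun a : ℤ => T * (a : ℝ) ≤ Real.sqrt |(n : ℝ)|) with hP1
  set P2 := P.filter (fun a : ℤ => T * Real.sqrt |(n : ℝ)| ≤ (a : ℝ) ∧ a ≤ ((N ^ 2 : ℕ) : ℤ)) with hP2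
  set P3 := P.filter (fun a : ℤ => T * Real.sqrt |(n : ℝ)| ≤ (a : ℝ) ∧ n ^ 2 ≤ a) with hP3
  have hsqN : ((N ^ 2 : ℕ) : ℤ) = n ^ 2 := by push_cast; rw [hNZ, sq_abs]
  have b1 : P1.card ≤ 8 * k1 := by
    refine small_bound n T hT k1 N hk1 hNZ.ge hn hk1T P1 ?_ ?_ ?_
    · intro a ha; exact hpos a (Finset.mem_filter.1 ha).1
    · intro a ha; exact (Finset.mem_filter.1 ha).2
    · intro a ha x hx hne
      exact hsq a (Finset.mem_filter.1 ha).1 x (Finset.mem_filter.1 hx).1 hne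
  have b2 : P2.card ≤ 8 * k2 := by
    refine large_bound n hn T hT k2 (N ^ 2) hk2 hk2T P2 ?_ ?_ ?_
    · intro a ha; exact (Finset.mem_filter.1 ha).2.1
    · intro a ha; exact (Finset.mem_filter.1 ha).2.2
    · intro a ha x hx hne
      exact hsq a (Finset.mem_filter.1 ha).1 x (Finset.mem_filter.1 hx).1 hne
  have b3 : P3.card ≤ 577 := by
    refine huge_bound n hn P3 ?_ ?_ ?_
    · intro a ha
      have h1 := (Finset.mem_filter.1 ha).2.1
      have h2 : (1 : ℝ) < a := by nlinarith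
      have h3 : (1 : ℤ) < a := by exact_mod_cast h2
      omega
    · intro a ha; exact (Finset.mem_filter.1 ha).2.2
    · intro a ha x hx hne
      exact hsq a (Finset.mem_filter.1 ha).1 x (Finset.mem_filter.1 hx).1 hne
  have hcov : P ⊆ P1 ∪ (P2 ∪ P3) := by
    intro a ha
    rcases hout a ha with h | h
    · exact Finset.mem_union_left _ (Finset.mem_filter.2 ⟨ha, h⟩)
    · apply Finset.mem_union_right
      rcases le_total a (n ^ 2) with h' | h'
      · exact Finset.mem_union_left _ (Finset.mem_filter.2 ⟨ha, h, by rw [hsqN]; exact h'⟩)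
      · exact Finset.mem_union_right _ (Finset.mem_filter.2 ⟨ha, h, h'⟩)
  have hcard : P.card ≤ 8 * k1 + 8 * k2 + 577 := by
    refine le_trans (Finset.card_le_card hcov) ?_
    have e1 := Finset.card_union_le P1 (P2 ∪ P3)
    have e2 := Finset.card_union_le P2 P3
    omega
  have hcardR : (P.card : ℝ) ≤ 8 * k1 + 8 * k2 + 577 := by exact_mod_cast hcard
  have hlog2 : Real.log ((N ^ 2 : ℕ) : ℝ) = 2 * Real.log |(n : ℝ)| := by
    push_cast
    rw [Real.log_pow, hNR]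
    push_cast
    ring
  rw [hlog2] at hk2b
  rw [hNR] at hk1b
  have e3 : 2 * Real.log |(n : ℝ)| / Real.log T = 2 * (Real.log |(n : ℝ)| / Real.log T) := by ring
  rw [e3] at hk2b
  linarith

/-- Every `D(n)`-tuple has at most `1186 + 96 log |n| / log T` elements `a` with
`|a| ≤ √|n| / T` or `|a| ≥ T √|n|`. -/
theorem result : ∀ n : ℤ, n ≠ 0 → ∀ T : ℝ, 1 < T → ∀ S : Finset ℤ,
    (∀ a ∈ S, a ≠ 0) → (∀ a ∈ S, ∀ b ∈ S, a ≠ b → IsSquare (a * b + n)) →
    ((S.filter (fun a : ℤ => T * |(a : ℝ)| ≤ Real.sqrt |(n : ℝ)| ∨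
      T * Real.sqrt |(n : ℝ)| ≤ |(a : ℝ)|)).card : ℝ) ≤
        1186 + 96 * (Real.log |(n : ℝ)| / Real.log T) := by
  classical
  intro n hn T hT S h0 hsq
  set F := S.filter (fun a : ℤ => T * |(a : ℝ)| ≤ Real.sqrt |(n : ℝ)| ∨
      T * Real.sqrt |(n : ℝ)| ≤ |(a : ℝ)|) with hF
  set P := F.filter (fun a : ℤ => 0 < a) with hP
  set Q := (F.filter (fun a : ℤ => a < 0)).image (fun a => -a) with hQ
  have hPF : ∀ a ∈ P, a ∈ F ∧ 0 < a := fun a ha => Finset.mem_filter.1 ha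
  have hFS : ∀ a ∈ F, a ∈ S := fun a ha => (Finset.mem_filter.1 ha).1
  have bP := pos_bound n hn T hT P (fun a ha => (hPF a ha).2) (by
    intro a ha
    have h1 := (Finset.mem_filter.1 (hPF a ha).1).2
    rwa [abs_of_pos (show (0 : ℝ) < a by exact_mod_cast (hPF a ha).2)] at h1) (by
    intro a ha b hb hab
    exact hsq a (hFS a (hPF a ha).1) b (hFS b (hPF b hb).1) hab)
  have bQ := pos_bound n hn T hT Q (by
    intro a ha
    obtain ⟨b, hb, rfl⟩ := Finset.mem_image.1 ha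
    have := (Finset.mem_filter.1 hb).2
    omega) (by
    intro a ha
    obtain ⟨b, hb, rfl⟩ := Finset.mem_image.1 ha
    have h2 := (Finset.mem_filter.1 hb).2
    have h1 := (Finset.mem_filter.1 (Finset.mem_filter.1 hb).1).2
    rw [abs_of_neg (show (b : ℝ) < 0 by exact_mod_cast h2)] at h1
    push_cast
    exact h1) (by
    intro a ha x hx hax
    obtain ⟨b, hb, rfl⟩ := Finset.mem_image.1 ha
    obtain ⟨y, hy, rfl⟩ := Finset.mem_image.1 hx
    have := hsq b (hFS b (Finset.mem_filter.1 hb).1) y (hFS y (Finset.mem_filter.1 hy).1)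
      (fun h => hax (by rw [h]))
    simpa using this)
  have hcov : F ⊆ P ∪ Q.image (fun a => -a) := by
    intro a ha
    rcases lt_or_gt_of_ne (h0 a (hFS a ha)) with hneg | hpos
    · apply Finset.mem_union_right
      rw [Finset.mem_image]
      refine ⟨-a, ?_, by ring⟩
      rw [hQ, Finset.mem_image]
      exact ⟨a, Finset.mem_filter.2 ⟨ha, hneg⟩, rfl⟩
    · exact Finset.mem_union_left _ (Finset.mem_filter.2 ⟨ha, hpos⟩)
  have hcard : F.card ≤ P.card + Q.card := by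
    refine le_trans (Finset.card_le_card hcov) ?_
    refine le_trans (Finset.card_union_le _ _) ?_
    have : (Q.image (fun a => -a)).card ≤ Q.card := Finset.card_image_le
    omega
  have : (F.card : ℝ) ≤ P.card + Q.card := by exact_mod_cast hcard
  linarith

end Pool.Agent.Results.MP_ea94d5_nt.UniformOutsideWindow
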