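import Mathlib
import Pool.Agent.Helper13.Dn.Tail3

set_option autoImplicit false

namespace Pool.Agent.Results.MP_ea94d5_nt.ExponentialTail

open Finset

/-- The number of nonzero integers `|n| ≤ N` which have a `D(n)`-tuple of more than `K`
nonzero integers is at most `C N exp (-K / (108000 log K))`, uniformly in `N ≥ 1` and
`K ≥ 2`. -/
theorem result : ∃ C : ℝ, ∀ N : ℕ, ∀ K : ℝ, 1 ≤ N → 2 ≤ K →
    (({n : ℤ | n ≠ 0 ∧ |n| ≤ N ∧ ∃ S : Finset ℤ, (∀ a ∈ S, a ≠ 0) ∧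
      (∀ a ∈ S, ∀ b ∈ S, a ≠ b → IsSquare (a * b + n)) ∧
      K < (S.card : ℝ)}.ncard : ℕ) : ℝ) ≤
    C * N * Real.exp (-K / (108000 * Real.log K)) := by
  obtain ⟨C, c, hc, h⟩ := Pool.Agent.Helper13.Dn.tail3
  refine ⟨C, fun N K hN hK => ?_⟩
  have h1 := h N K hN hK
  have h2 : -c * K / Real.log K = -K / (108000 * Real.log K) := by
    rw [hc]
    have : 0 < Real.log K := Real.log_pos (by linarith)
    field_simp
  rw [h2, ← mul_assoc] at h1
  exact h1

end Pool.Agent.Results.MP_ea94d5_nt.ExponentialTail
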