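import Mathlib
import Pool.Agent.Helper13.Dn.Window

set_option autoImplicit false

namespace Pool.Agent.Results.MP_ea94d5_nt.PadicWindow

open Finset

/-- The `p`-adic window theorem: the number of elements `a` of a `D(n)`-tuple whose `p`-adic
valuation satisfies `|2 v_p(a) - v_p(n)| ≥ h` is bounded in terms of `log |n| / (h log p)` only
(with `h - 2` in place of `h` when `p = 2`). -/
theorem result : ∀ p : ℕ, p.Prime → ∀ h g : ℕ, 1 ≤ g →
    ((p ≠ 2 ∧ h = g) ∨ (p = 2 ∧ h = g + 2)) → ∀ n : ℤ, n ≠ 0 → ∀ S : Finset ℤ,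
    (∀ a ∈ S, a ≠ 0) → (∀ a ∈ S, ∀ b ∈ S, a ≠ b → IsSquare (a * b + n)) →
    ((S.filter (fun a : ℤ => 2 * padicValInt p a + h ≤ padicValInt p n ∨
      padicValInt p n + h ≤ 2 * padicValInt p a)).card : ℝ) ≤
      9000 * (1 + Real.log |(n : ℝ)| / (g * Real.log p)) *
        (1 + Real.log (1 + Real.log |(n : ℝ)| / (g * Real.log p))) ^ 2 := by
  intro p hp h g hg hcase n hn S h0 hsq
  exact Pool.Agent.Helper13.Dn.window p hp h g hg hcase n hn S h0 hsq _ rfl

end Pool.Agent.Results.MP_ea94d5_nt.PadicWindow
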