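import Mathlib
import Pool.Agent.Helper3.DW.Final

set_option autoImplicit false

namespace Pool.Agent.Results.MP_ea94d5_nt.PrimeFactorBound

/-- For every nonzero integer `n` every `D(n)`-tuple has at most
`exp (5000 (ω + 1) (1 + log (ω + 1)))` elements, where `ω` is the number of distinct primes
dividing `n`. -/
theorem result : ∀ n : ℤ, n ≠ 0 → ∀ S : Finset ℤ, (∀ a ∈ S, a ≠ 0) →
    (∀ a ∈ S, ∀ b ∈ S, a ≠ b → IsSquare (a * b + n)) →
    (S.card : ℝ) ≤ Real.exp (5000 * ((n.natAbs.primeFactors.card : ℝ) + 1) *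
      (1 + Real.log ((n.natAbs.primeFactors.card : ℝ) + 1))) :=
  Pool.Agent.Helper3.DW.final

end Pool.Agent.Results.MP_ea94d5_nt.PrimeFactorBound
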